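import Pool.Agent.Q201.AR.Stm

set_option autoImplicit false

/-!
Project AR (MP_f714b8_lc), JOB RR: the coded binary relation is definable.
-/

open FirstOrder FirstOrder.Language

namespace Q217.AR

open Q201.AR

/-- Variables of the graph of `code i`: the tuple `t` is quantified, the value is the free
variable `a`. -/
def gr (k : ℕ) (a : Fin 2) : Fin (k + 1) → Fin 2 ⊕ Fin k :=
  Fin.lastCases (motive := fun _ => Fin 2 ⊕ Fin k) (Sum.inl a) (fun l => Sum.inr l)

theorem gr_last {k : ℕ} (a : Fin 2) : gr k a (Fin.last k) = Sum.inl a := by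
  simp [gr]

theorem gr_castSucc {k : ℕ} (a : Fin 2) (l : Fin k) : gr k a l.castSucc = Sum.inr l := by
  simp [gr]

theorem realize_gr {L : FirstOrder.Language.{0, 0}} {M : Type} [L.Structure M] {k : ℕ}
    {G : L.Formula (Fin (k + 1))} {c : (Fin k → M) → M}
    (hG : ∀ v : Fin (k + 1) → M, G.Realize v ↔ c (fun l => v l.castSucc) = v (Fin.last k))
    (a : Fin 2) (v : Fin 2 → M) (t : Fin k → M) :
    (G.relabel (gr k a)).Realize (Sum.elim v t) ↔ v a = c t := by
  rw [Formula.realize_relabel, hG]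
  simp only [Function.comp_def, gr_last, gr_castSucc, Sum.elim_inl, Sum.elim_inr]
  exact eq_comm

theorem realize_io {L : FirstOrder.Language.{0, 0}} {M : Type} [L.Structure M] {k : ℕ}
    {F : L.Formula (Fin 2)} {ι : M → M}
    (hF : ∀ v : Fin 2 → M, F.Realize v ↔ ι (v 0) = v 1)
    (l : Fin k) (v : Fin 2 → M) (t : Fin k → M) :
    (F.relabel (![Sum.inr l, Sum.inl 1] : Fin 2 → Fin 2 ⊕ Fin k)).Realize (Sum.elim v t) ↔
      v 1 = ι (t l) := by
  rw [Formula.realize_relabel, hF]
  simp only [Function.comp_def, Matrix.cons_val_zero, Matrix.cons_val_one, Sum.elim_inl,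
    Sum.elim_inr]
  exact eq_comm

open Classical in
/-- The first disjunct. -/
noncomputable def D1 {L : FirstOrder.Language.{0, 0}} (k r : ℕ) (G : ℕ → L.Formula (Fin (k + 1)))
    (i : Fin (k + r)) : L.Formula (Fin 2) :=
  if (i : ℕ) + 1 < k + r then
    Formula.iExs (Fin k) ((G i).relabel (gr k 0) ⊓ (G (i + 1)).relabel (gr k 1))
  else ⊥

open Classical in
/-- The second disjunct. -/
noncomputable def D2 {L : FirstOrder.Language.{0, 0}} (k r : ℕ) (F : L.Formula (Fin 2))
    (G : ℕ → L.Formula (Fin (k + 1))) (q : Fin (k + r) × Fin k) : L.Formula (Fin 2) :=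
  if (q.2 : ℕ) = min (q.1 : ℕ) (k - 1) then
    Formula.iExs (Fin k) ((G q.1).relabel (gr k 0) ⊓
      F.relabel (![Sum.inr q.2, Sum.inl 1] : Fin 2 → Fin 2 ⊕ Fin k))
  else ⊥

/-- The third disjunct. -/
noncomputable def D3 {L : FirstOrder.Language.{0, 0}} (k r : ℕ)
    (G : ℕ → L.Formula (Fin (k + 1))) (Sf : Fin r → L.Formula (Fin k)) (j : Fin r) :
    L.Formula (Fin 2) :=
  Formula.iExs (Fin k) ((Sf j).relabel (Sum.inr : Fin k → Fin 2 ⊕ Fin k) ⊓
      (G (k + j)).relabel (gr k 0)) ⊓ (Term.var 1).equal (Term.var 0)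

/-- JOB RR. -/
theorem t_RR : S_RR := by
  intro L k r _ F G Sf
  refine ⟨Formula.iSup (D1 k r G) ⊔ (Formula.iSup (D2 k r F G) ⊔ Formula.iSup (D3 k r G Sf)),
    fun M _ ι code S hF hG hS v => ?_⟩
  rw [Formula.realize_sup, Formula.realize_sup, Formula.realize_iSup, Formula.realize_iSup,
    Formula.realize_iSup]
  have h1 : (∃ i, (D1 k r G i).Realize v) ↔
      ∃ (i : ℕ) (t : Fin k → M), i + 1 < k + r ∧ v 0 = code i t ∧ v 1 = code (i + 1) t := by
    constructor
    · rintro ⟨i, hi⟩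
      by_cases h : (i : ℕ) + 1 < k + r
      · rw [D1, if_pos h, Formula.realize_iExs] at hi
        obtain ⟨t, ht⟩ := hi
        rw [Formula.realize_inf, realize_gr (hG i i.2), realize_gr (hG (i + 1) h)] at ht
        exact ⟨i, t, h, ht.1, ht.2⟩
      · rw [D1, if_neg h] at hi
        exact hi.elim
    · rintro ⟨i, t, h, h0, h1⟩
      refine ⟨⟨i, by omega⟩, ?_⟩
      rw [D1, if_pos h, Formula.realize_iExs]
      refine ⟨t, ?_⟩
      rw [Formula.realize_inf, realize_gr (hG i (by omega)), realize_gr (hG (i + 1) h)]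
      exact ⟨h0, h1⟩
  have h2 : (∃ q, (D2 k r F G q).Realize v) ↔
      ∃ (i : ℕ) (t : Fin k → M) (l : Fin k), i < k + r ∧ (l : ℕ) = min i (k - 1) ∧
        v 0 = code i t ∧ v 1 = ι (t l) := by
    constructor
    · rintro ⟨⟨i, l⟩, hi⟩
      by_cases h : (l : ℕ) = min (i : ℕ) (k - 1)
      · rw [D2, if_pos h, Formula.realize_iExs] at hi
        obtain ⟨t, ht⟩ := hi
        rw [Formula.realize_inf, realize_gr (hG i i.2), realize_io hF] at ht
        exact ⟨i, t, l, i.2, h, ht.1, ht.2⟩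
      · rw [D2, if_neg h] at hi
        exact hi.elim
    · rintro ⟨i, t, l, hi, h, h0, h1⟩
      refine ⟨(⟨i, hi⟩, l), ?_⟩
      rw [D2, if_pos h, Formula.realize_iExs]
      refine ⟨t, ?_⟩
      rw [Formula.realize_inf, realize_gr (hG i hi), realize_io hF]
      exact ⟨h0, h1⟩
  have h3 : (∃ j, (D3 k r G Sf j).Realize v) ↔
      ∃ (j : Fin r) (t : Fin k → M), S j t ∧ v 0 = code (k + j) t ∧ v 1 = v 0 := by
    refine exists_congr fun j => ?_
    rw [D3, Formula.realize_inf, Formula.realize_iExs, Formula.realize_equal]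
    have hj : k + (j : ℕ) < k + r := by
      have := j.2
      omega
    constructor
    · rintro ⟨⟨t, ht⟩, he⟩
      rw [Formula.realize_inf, Formula.realize_relabel, realize_gr (hG _ hj), hS] at ht
      exact ⟨t, ht.1, ht.2, he⟩
    · rintro ⟨t, hs, h0, he⟩
      refine ⟨⟨t, ?_⟩, he⟩
      rw [Formula.realize_inf, Formula.realize_relabel, realize_gr (hG _ hj), hS]
      exact ⟨hs, h0⟩
  rw [h1, h2, h3]
  rfl

end Q217.AR
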